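import Pool.Agent.Lib.MP_7ec162_pr.SP.Spec

/-!
# MP_7ec162: module DHH (the increment of `H` for one pair)
-/

set_option autoImplicit false

namespace Pool.Agent.Lib.MP7ec162.SP

open Finset

namespace DHHM

variable {N : ℕ}

theorem s1 (x y : ℤ) : |x + 1 - y| - |x - y| = if y ≤ x then 1 else -1 := by
  split_ifs with h
  · rw [abs_of_nonneg (by omega), abs_of_nonneg (by omega)]
    ring
  · rw [abs_of_nonpos (by omega), abs_of_nonpos (by omega)]
    ring

theorem s2 (x y : ℤ) : |y - (x + 1)| - |y - x| = if y ≤ x then 1 else -1 := by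
  rw [abs_sub_comm y (x + 1), abs_sub_comm y x]
  exact s1 x y

/-- one counter is raised -/
def rs (i : Fin N) (C : Fin N → ℤ) : Fin N → ℤ := fun k => if k = i then C k + 1 else C k

theorem single (C : Fin N → ℤ) (i : Fin N) :
    HH (rs i C) - HH C = 2 * ∑ k, (if k = i then 0 else if C k ≤ C i then (1 : ℤ) else -1) := by
  have h : ∀ a b, |rs i C a - rs i C b| - |C a - C b| =
      (if a = i then (if b = i then 0 else if C b ≤ C i then (1 : ℤ) else -1) else 0) +
      (if b = i then (if a = i then 0 else if C a ≤ C i then (1 : ℤ) else -1) else 0) := by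
    intro a b
    unfold rs
    by_cases ha : a = i
    · by_cases hb : b = i
      · rw [ha, hb]
        simp
      · rw [if_pos ha, if_neg hb, if_pos ha, if_neg hb, if_neg hb, ha, add_zero]
        exact s1 _ _
    · by_cases hb : b = i
      · rw [if_neg ha, if_pos hb, if_neg ha, if_pos hb, if_neg ha, hb, zero_add]
        exact s2 _ _
      · rw [if_neg ha, if_neg hb, if_neg ha, if_neg hb]
        ring
  calc HH (rs i C) - HH C = ∑ a, ∑ b, (|rs i C a - rs i C b| - |C a - C b|) := by
        unfold HH
        rw [← sum_sub_distrib]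
        exact sum_congr rfl fun a _ => (sum_sub_distrib _ _).symm
    _ = ∑ a, ∑ b, ((if a = i then (if b = i then 0 else if C b ≤ C i then (1 : ℤ) else -1) else 0) +
      (if b = i then (if a = i then 0 else if C a ≤ C i then (1 : ℤ) else -1) else 0)) :=
        sum_congr rfl fun a _ => sum_congr rfl fun b _ => h a b
    _ = (∑ a, ∑ b, (if a = i then (if b = i then 0 else if C b ≤ C i then (1 : ℤ) else -1) else 0)) +
      ∑ a, ∑ b, (if b = i then (if a = i then 0 else if C a ≤ C i then (1 : ℤ) else -1) else 0) := by
        rw [← sum_add_distrib]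
        exact sum_congr rfl fun a _ => sum_add_distrib
    _ = (∑ b, ∑ a, (if a = i then (if b = i then 0 else if C b ≤ C i then (1 : ℤ) else -1) else 0)) +
      ∑ a, ∑ b, (if b = i then (if a = i then 0 else if C a ≤ C i then (1 : ℤ) else -1) else 0) := by
        rw [sum_comm (s := univ) (t := univ) (f := fun a b => (if a = i then (if b = i then 0
          else if C b ≤ C i then (1 : ℤ) else -1) else 0))]
    _ = 2 * ∑ k, (if k = i then 0 else if C k ≤ C i then (1 : ℤ) else -1) := by
        simp only [sum_ite_eq', mem_univ, if_true]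
        ring

theorem inc_comm (i j : Fin N) (C : Fin N → ℤ) : inc i j C = inc j i C := by
  funext k
  unfold inc
  by_cases h : (k = i ∧ C i ≤ C j) ∨ (k = j ∧ C j ≤ C i)
  · rw [if_pos h, if_pos (Or.comm.mp h)]
  · rw [if_neg h, if_neg (fun h' => h (Or.comm.mp h'))]

theorem inc_lt {i j : Fin N} {C : Fin N → ℤ} (h : C i < C j) : inc i j C = rs i C := by
  funext k
  unfold inc rs
  by_cases hk : k = i
  · rw [if_pos (Or.inl ⟨hk, h.le⟩), if_pos hk]
  · rw [if_neg hk, if_neg]
    rintro (h' | h')
    · exact hk h'.1
    · omega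

theorem lt_case {i j : Fin N} {C : Fin N → ℤ} (h : C i < C j) : HH (inc i j C) - HH C =
    2 * (if C i ≤ C j then ∑ k, (if k = i then 0 else if C k ≤ C i then (1 : ℤ) else -1) else 0) +
    2 * (if C j ≤ C i then ∑ k, (if k = j then 0 else if C k ≤ C j then (1 : ℤ) else -1) else 0) -
      (if C i = C j then 4 else 0) := by
  rw [inc_lt h, single, if_pos h.le, if_neg (not_le.mpr h), if_neg h.ne]
  ring

theorem eq_case {i j : Fin N} {C : Fin N → ℤ} (hij : i ≠ j) (h : C i = C j) :
    HH (inc i j C) - HH C =
    2 * (if C i ≤ C j then ∑ k, (if k = i then 0 else if C k ≤ C i then (1 : ℤ) else -1) else 0) +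
    2 * (if C j ≤ C i then ∑ k, (if k = j then 0 else if C k ≤ C j then (1 : ℤ) else -1) else 0) -
      (if C i = C j then 4 else 0) := by
  have h1 : inc i j C = rs j (rs i C) := by
    funext k
    unfold inc rs
    by_cases hk : k = i
    · have hkj : k ≠ j := fun h' => hij (hk ▸ h')
      rw [if_pos (Or.inl ⟨hk, h.le⟩), if_neg hkj, if_pos hk]
    · by_cases hk' : k = j
      · rw [if_pos (Or.inr ⟨hk', h.ge⟩), if_pos hk', if_neg hk]
      · rw [if_neg hk', if_neg hk, if_neg]
        rintro (h' | h')
        · exact hk h'.1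
        · exact hk' h'.1
  have h2 := single C i
  have h3 := single (rs i C) j
  have h4 : ∑ k, (if k = j then 0 else if rs i C k ≤ rs i C j then (1 : ℤ) else -1) =
      (∑ k, (if k = j then 0 else if C k ≤ C j then (1 : ℤ) else -1)) - 2 := by
    have h5 : ∀ k, (if k = j then 0 else if rs i C k ≤ rs i C j then (1 : ℤ) else -1) =
        (if k = j then 0 else if C k ≤ C j then (1 : ℤ) else -1) - (if k = i then 2 else 0) := by
      intro k
      unfold rs
      by_cases hk : k = i
      · have hkj : k ≠ j := fun h' => hij (hk ▸ h')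
        have hji : j ≠ i := fun h' => hij h'.symm
        rw [if_neg hkj, if_pos hk, if_neg hji, if_neg hkj, if_pos hk, hk,
          if_neg (by omega), if_pos h.le]
        norm_num
      · by_cases hk' : k = j
        · rw [if_pos hk', if_pos hk', if_neg hk]
          ring
        · have hji : j ≠ i := fun h' => hij h'.symm
          rw [if_neg hk', if_neg hk, if_neg hji, if_neg hk', if_neg hk]
          ring
    rw [sum_congr rfl fun k _ => h5 k, sum_sub_distrib]
    simp
  rw [h4] at h3
  rw [h1, if_pos h.le, if_pos h.ge, if_pos h]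
  linarith

end DHHM

theorem specDHH : SpecDHH := by
  intro N C i j hij
  rcases lt_trichotomy (C i) (C j) with h | h | h
  · exact DHHM.lt_case h
  · exact DHHM.eq_case hij h
  · rw [DHHM.inc_comm, DHHM.lt_case h, if_neg (show ¬ C j = C i from h.ne),
      if_neg (show ¬ C i = C j from h.ne')]
    ring

end Pool.Agent.Lib.MP7ec162.SP

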