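import Pool.Agent.Lib.MP_7ec162_pr.SP.Spec

/-!
# MP_7ec162, module `DRF`: the drift of `H`
-/

set_option autoImplicit false

namespace Pool.Agent.Lib.MP7ec162.SP

open Finset

namespace DRFM

variable {N : ℕ}

/-- the sum over the third index -/
def a (C : Fin N → ℤ) (i j : Fin N) : ℤ :=
  if i ≠ j ∧ C i ≤ C j then ∑ k, (if k = i then 0 else if C k ≤ C i then (1 : ℤ) else -1) else 0

/-- different indices, equal counters -/
def e (C : Fin N → ℤ) (i j : Fin N) : ℤ := if i ≠ j ∧ C j = C i then 1 else 0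

/-- the first counter is smaller -/
def l (C : Fin N → ℤ) (i j : Fin N) : ℤ := if C i < C j then 1 else 0

/-- the term of the triple sum -/
def t (C : Fin N → ℤ) (i j k : Fin N) : ℤ :=
  if i ≠ j ∧ j ≠ k ∧ i ≠ k ∧ C i ≤ C j then (if C k ≤ C i then (1 : ℤ) else -1) else 0

lemma step1 (hDHH : SpecDHH) (C : Fin N → ℤ) (i j : Fin N) :
    (if i = j then 0 else HH (inc i j C) - HH C) = 2 * a C i j + 2 * a C j i - 4 * e C i j := by
  by_cases hij : i = j
  · subst hij
    simp [a, e]
  · have hji : ¬ j = i := fun h => hij h.symm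
    rw [if_neg hij, hDHH N C i j hij]
    have h1 : (if C i ≤ C j then ∑ k, (if k = i then 0 else if C k ≤ C i then (1 : ℤ) else -1) else 0) =
        a C i j := by
      unfold a
      by_cases h : C i ≤ C j
      · rw [if_pos h, if_pos ⟨hij, h⟩]
      · rw [if_neg h, if_neg (fun h' => h h'.2)]
    have h2 : (if C j ≤ C i then ∑ k, (if k = j then 0 else if C k ≤ C j then (1 : ℤ) else -1) else 0) =
        a C j i := by
      unfold a
      by_cases h : C j ≤ C i
      · rw [if_pos h, if_pos ⟨hji, h⟩]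
      · rw [if_neg h, if_neg (fun h' => h h'.2)]
    have h3 : (if C i = C j then (4 : ℤ) else 0) = 4 * e C i j := by
      unfold e
      by_cases h : C i = C j
      · rw [if_pos h, if_pos ⟨hij, h.symm⟩]; norm_num
      · rw [if_neg h, if_neg (fun h' => h h'.2.symm)]; norm_num
    rw [h1, h2, h3]

lemma step2 (C : Fin N → ℤ) (i j : Fin N) : a C i j = ∑ k, t C i j k + (e C i j - l C i j) := by
  have h : ∀ k, (if i ≠ j ∧ C i ≤ C j then (if k = i then 0 else if C k ≤ C i then (1 : ℤ) else -1) else 0) =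
      t C i j k + (if k = j then e C i j - l C i j else 0) := by
    intro k
    unfold t e l
    by_cases hij : i = j
    · subst hij
      simp
    · by_cases hki : k = i
      · subst hki
        simp [hij]
      · by_cases hkj : k = j
        · subst hkj
          by_cases hle : C i ≤ C k
          · by_cases hge : C k ≤ C i
            · have heq : C k = C i := le_antisymm hge hle
              simp [hij, hki, heq]
            · have hlt : C i < C k := not_le.mp hge
              have hne : ¬ C k = C i := fun h => hge h.le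
              simp [hij, hki, hle, hge, hlt, hne]
          · have hlt : ¬ C i < C k := fun h => hle h.le
            have hne : ¬ C k = C i := fun h => hle h.symm.le
            simp [hij, hle, hlt, hne]
        · have hik : ¬ i = k := fun h => hki h.symm
          have hjk : ¬ j = k := fun h => hkj h.symm
          simp [hij, hki, hkj, hik, hjk]
  have h' : a C i j = ∑ k, (if i ≠ j ∧ C i ≤ C j then (if k = i then 0 else if C k ≤ C i then (1 : ℤ) else -1) else 0) := by
    unfold a
    by_cases hc : i ≠ j ∧ C i ≤ C j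
    · simp only [if_pos hc]
    · simp only [if_neg hc, Finset.sum_const_zero]
  rw [h', Finset.sum_congr rfl (fun k _ => h k), Finset.sum_add_distrib, Finset.sum_ite_eq' Finset.univ j,
    if_pos (Finset.mem_univ j)]

lemma step3 (C : Fin N → ℤ) (i j : Fin N) :
    l C i j + l C j i + e C i j + (if i = j then 1 else 0) = 1 := by
  unfold l e
  by_cases hij : i = j
  · subst hij
    simp
  · rcases lt_trichotomy (C i) (C j) with h | h | h
    · have h1 : ¬ C j < C i := not_lt.mpr h.le
      have h2 : ¬ C j = C i := h.ne'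
      simp [hij, h, h1, h2]
    · simp [hij, h]
    · have h1 : ¬ C i < C j := not_lt.mpr h.le
      have h2 : ¬ C j = C i := h.ne
      simp [hij, h, h1, h2]

lemma sum_l (C : Fin N → ℤ) : 2 * ∑ i, ∑ j, l C i j = (N : ℤ) * (N - 1) - P2 C := by
  have h1 : ∑ i : Fin N, ∑ j : Fin N, (l C i j + l C j i + e C i j + (if i = j then 1 else 0)) =
      ∑ i : Fin N, ∑ j : Fin N, (1 : ℤ) :=
    Finset.sum_congr rfl fun i _ => Finset.sum_congr rfl fun j _ => step3 C i j
  have h2 : ∑ i : Fin N, ∑ j : Fin N, (1 : ℤ) = (N : ℤ) * N := by simp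
  have h3 : ∑ i : Fin N, ∑ j : Fin N, (if i = j then (1 : ℤ) else 0) = (N : ℤ) := by simp
  have h4 : ∑ i : Fin N, ∑ j : Fin N, l C j i = ∑ i : Fin N, ∑ j : Fin N, l C i j := Finset.sum_comm
  have h5 : ∑ i : Fin N, ∑ j : Fin N, e C i j = P2 C := rfl
  simp only [Finset.sum_add_distrib] at h1
  rw [h2, h3, h4, h5] at h1
  linarith

end DRFM

open DRFM in
/-- The drift of `H`. -/
theorem specDRF (hTRP : SpecTRP) (hTRD : SpecTRD) (hDHH : SpecDHH) : SpecDRF := by
  intro N C
  have hT : 6 * ∑ i, ∑ j, ∑ k, t C i j k = 6 * P3 C - D3 C := hTRP N C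
  have hD := hTRD N C
  have hL := sum_l C
  have h1 : ∑ i, ∑ j, (if i = j then 0 else HH (inc i j C) - HH C) =
      ∑ i, ∑ j, (2 * a C i j + 2 * a C j i - 4 * e C i j) :=
    Finset.sum_congr rfl fun i _ => Finset.sum_congr rfl fun j _ => step1 hDHH C i j
  have h4 : ∑ i : Fin N, ∑ j : Fin N, a C j i = ∑ i : Fin N, ∑ j : Fin N, a C i j := Finset.sum_comm
  have h5 : ∑ i : Fin N, ∑ j : Fin N, e C i j = P2 C := rfl
  have h6 : ∑ i, ∑ j, (2 * a C i j + 2 * a C j i - 4 * e C i j) = 4 * (∑ i, ∑ j, a C i j) - 4 * P2 C := by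
    simp only [Finset.sum_sub_distrib, Finset.sum_add_distrib, ← Finset.mul_sum]
    rw [h4, h5]
    ring
  have h7 : ∑ i, ∑ j, a C i j = ∑ i, ∑ j, ∑ k, t C i j k + (P2 C - ∑ i, ∑ j, l C i j) := by
    have h8 : ∑ i, ∑ j, a C i j = ∑ i, ∑ j, (∑ k, t C i j k + (e C i j - l C i j)) :=
      Finset.sum_congr rfl fun i _ => Finset.sum_congr rfl fun j _ => step2 C i j
    rw [h8]
    simp only [Finset.sum_add_distrib, Finset.sum_sub_distrib]
    rw [h5]
  rw [h1, h6, h7]
  linarith

end Pool.Agent.Lib.MP7ec162.SP
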