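import Pool.Agent.Lib.MP_7ec162_pr.SP.Spec

set_option autoImplicit false

namespace Pool.Agent.Lib.MP7ec162.SP

open Finset

namespace EXPM

lemma summ {X : Type} {w : X → ℝ} (hw : Summable w) (h0 : ∀ C, 0 ≤ w C) (f : X → ℝ) (B : ℝ)
    (hf : ∀ C, |f C| ≤ B) : Summable (fun C => w C * f C) := by
  refine Summable.of_norm_bounded (g := fun C => w C * B) (hw.mul_right B) (fun C => ?_)
  rw [norm_mul, Real.norm_eq_abs, Real.norm_eq_abs, abs_of_nonneg (h0 C)]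
  exact mul_le_mul_of_nonneg_left (hf C) (h0 C)

lemma inc_near {N : ℕ} (i j : Fin N) (C : Fin N → ℤ) (k : Fin N) : |inc i j C k - C k| ≤ 1 := by
  unfold inc
  split_ifs
  · rw [add_sub_cancel_left]; norm_num
  · rw [sub_self]; norm_num

lemma HH_inc {N : ℕ} (i j : Fin N) (C : Fin N → ℤ) : |HH (inc i j C) - HH C| ≤ (N : ℤ) * (N * 2) := by
  unfold HH
  rw [← Finset.sum_sub_distrib]
  refine (Finset.abs_sum_le_sum_abs _ _).trans ?_
  have h1 : ∀ a ∈ (Finset.univ : Finset (Fin N)),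
      abs ((∑ b, abs (inc i j C a - inc i j C b)) - (∑ b, abs (C a - C b))) ≤ (N : ℤ) * 2 := by
    intro a _
    rw [← Finset.sum_sub_distrib]
    refine (Finset.abs_sum_le_sum_abs _ _).trans ?_
    have h2 : ∀ b ∈ (Finset.univ : Finset (Fin N)),
        abs (abs (inc i j C a - inc i j C b) - abs (C a - C b)) ≤ (2 : ℤ) := by
      intro b _
      have h3 := inc_near i j C a
      have h4 := inc_near i j C b
      have h5 := abs_abs_sub_abs_le_abs_sub (inc i j C a - inc i j C b) (C a - C b)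
      have h6 : inc i j C a - inc i j C b - (C a - C b) =
        (inc i j C a - C a) - (inc i j C b - C b) := by ring
      rw [h6] at h5
      have h7 := abs_sub (inc i j C a - C a) (inc i j C b - C b)
      omega
    refine (Finset.sum_le_card_nsmul _ _ _ h2).trans ?_
    rw [Finset.card_univ, Fintype.card_fin, nsmul_eq_mul]
  refine (Finset.sum_le_card_nsmul _ _ _ h1).trans ?_
  rw [Finset.card_univ, Fintype.card_fin, nsmul_eq_mul]

lemma gap {N : ℕ} : GapFun (fun C : Fin N → ℤ => ((HH C : ℤ) : ℝ)) := by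
  constructor
  · intro C c
    show ((HH (fun k => C k + c) : ℤ) : ℝ) = ((HH C : ℤ) : ℝ)
    congr 1
    unfold HH
    refine Finset.sum_congr rfl fun a _ => Finset.sum_congr rfl fun b _ => ?_
    rw [add_sub_add_right_eq_sub]
  · intro C s
    show ((HH (C ∘ s) : ℤ) : ℝ) = ((HH C : ℤ) : ℝ)
    congr 1
    unfold HH
    rw [← Equiv.sum_comp s (fun a => ∑ b, |C a - C b|)]
    refine Finset.sum_congr rfl fun a _ => ?_
    exact Equiv.sum_comp s (fun b => |C (s a) - C b|)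

end EXPM

open EXPM in
theorem specEXP (hDRF : SpecDRF) (hSUM : SpecSUM) (hSTA : SpecSTA) (hINQ : SpecINQ) : SpecEXP := by
  intro N w hN hw
  have hws : Summable w := hw.one.summable
  have hn2 : (2 : ℝ) ≤ (N : ℝ) := by exact_mod_cast hN
  have hn : (0 : ℝ) < (N : ℝ) := by linarith
  have hn1 : (0 : ℝ) < (N : ℝ) - 1 := by linarith
  have q0 : ∀ C : Fin N → ℤ, (0 : ℝ) ≤ (P2 C : ℝ) := fun C => by exact_mod_cast (hINQ N C).2.1
  have q1 : ∀ C : Fin N → ℤ, (P2 C : ℝ) ≤ (N : ℝ) * ((N : ℝ) - 1) := fun C => by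
    exact_mod_cast (hINQ N C).2.2.1
  have r0 : ∀ C : Fin N → ℤ, (0 : ℝ) ≤ (P3 C : ℝ) := fun C => by exact_mod_cast (hINQ N C).2.2.2.1
  have r1 : ∀ C : Fin N → ℤ, (P3 C : ℝ) ≤ (N : ℝ) * ((N : ℝ) - 1) * ((N : ℝ) - 2) + N := fun C => by
    exact_mod_cast (hINQ N C).2.2.2.2.1
  have hsx : Summable (fun C => w C * (P2 C : ℝ)) :=
    summ hws hw.nonneg _ _ (fun C => by rw [abs_of_nonneg (q0 C)]; exact q1 C)
  have hsy : Summable (fun C => w C * (P3 C : ℝ)) :=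
    summ hws hw.nonneg _ _ (fun C => by rw [abs_of_nonneg (r0 C)]; exact r1 C)
  obtain ⟨x, hx⟩ := hsx
  obtain ⟨y, hy⟩ := hsy
  refine ⟨x, y, ?_, ?_, ?_, ?_, ?_⟩
  · unfold speed
    have h1 : ∀ C : Fin N → ℤ, w C * avg (fun i j => ((∑ k, inc i j C k : ℤ) : ℝ) - ((∑ k, C k : ℤ) : ℝ)) =
        w C + w C * (P2 C : ℝ) / ((N : ℝ) * ((N : ℝ) - 1)) := by
      intro C
      rw [hSUM N C hN]
      ring
    rw [tsum_congr h1]
    exact (hw.one.add (hx.div_const _)).tsum_eq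
  · have h1 := hSTA N w (fun C => ((HH C : ℤ) : ℝ)) ((((N : ℤ) * (N * 2) : ℤ)) : ℝ) hN hw gap
      (fun C => by
        have : (0 : ℤ) ≤ HH C := Finset.sum_nonneg fun a _ => Finset.sum_nonneg fun b _ => abs_nonneg _
        exact_mod_cast this)
      (fun C i j => by
        have := HH_inc i j C
        exact_mod_cast this)
    have h2 : ∀ C : Fin N → ℤ, w C * avg (fun i j => ((HH (inc i j C) : ℤ) : ℝ) - ((HH C : ℤ) : ℝ)) =
        (8 * (w C * (P3 C : ℝ)) + 6 * ((N : ℝ) - 1) * (w C * (P2 C : ℝ)) -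
          2 * (N : ℝ) * ((N : ℝ) - 1) * ((N : ℝ) + 1) * w C) / (3 * ((N : ℝ) * ((N : ℝ) - 1))) := by
      intro C
      have h3 := hDRF N C
      have h4 : (3 : ℝ) * ∑ i, ∑ j, (if i = j then (0 : ℝ) else ((HH (inc i j C) : ℤ) : ℝ) - ((HH C : ℤ) : ℝ)) =
          8 * (P3 C : ℝ) + 6 * ((N : ℝ) - 1) * (P2 C : ℝ) - 2 * (N : ℝ) * ((N : ℝ) - 1) * ((N : ℝ) + 1) := by
        have h5 := congrArg (fun z : ℤ => (z : ℝ)) h3
        push_cast at h5
        exact h5
      unfold avg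
      rw [mul_div_assoc', div_eq_div_iff (by positivity) (by positivity)]
      linear_combination (w C * ((N : ℝ) * ((N : ℝ) - 1))) * h4
    rw [tsum_congr h2] at h1
    have h6 := ((((hy.mul_left 8).add (hx.mul_left (6 * ((N : ℝ) - 1)))).sub
      (hw.one.mul_left (2 * (N : ℝ) * ((N : ℝ) - 1) * ((N : ℝ) + 1)))).div_const
        (3 * ((N : ℝ) * ((N : ℝ) - 1)))).tsum_eq
    rw [h6] at h1
    have h7 : (3 * ((N : ℝ) * ((N : ℝ) - 1))) ≠ 0 := by positivity
    rw [div_eq_zero_iff] at h1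
    rcases h1 with h1 | h1
    · linarith
    · exact absurd h1 h7
  · have h1 := hasSum_le (f := fun C => 2 * x * (w C * (P2 C : ℝ)) - x ^ 2 * w C)
      (g := fun C => (N : ℝ) * (w C * (P3 C : ℝ) + w C * (P2 C : ℝ))) ?_
      ((hx.mul_left (2 * x)).sub (hw.one.mul_left (x ^ 2))) ((hy.add hx).mul_left (N : ℝ))
    · nlinarith
    · intro C
      have h2 : (P2 C : ℝ) ^ 2 ≤ (N : ℝ) * ((P3 C : ℝ) + (P2 C : ℝ)) := by
        exact_mod_cast (hINQ N C).1
      have h3 := hw.nonneg C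
      have h4 : 2 * x * (P2 C : ℝ) - x ^ 2 ≤ (N : ℝ) * ((P3 C : ℝ) + (P2 C : ℝ)) := by
        nlinarith [sq_nonneg ((P2 C : ℝ) - x)]
      have h5 := mul_le_mul_of_nonneg_left h4 h3
      show 2 * x * (w C * (P2 C : ℝ)) - x ^ 2 * w C ≤ (N : ℝ) * (w C * (P3 C : ℝ) + w C * (P2 C : ℝ))
      linarith
  · exact hx.nonneg fun C => mul_nonneg (hw.nonneg C) (q0 C)
  · have h1 := hasSum_le (f := fun C => ((N : ℝ) + 1) * (w C * (P3 C : ℝ)))
      (g := fun C => (N : ℝ) * ((N : ℝ) - 1) * (w C * (P2 C : ℝ) - 2 * w C)) ?_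
      (hy.mul_left ((N : ℝ) + 1)) ((hx.sub (hw.one.mul_left 2)).mul_left ((N : ℝ) * ((N : ℝ) - 1)))
    · linarith
    · intro C
      show ((N : ℝ) + 1) * (w C * (P3 C : ℝ)) ≤ (N : ℝ) * ((N : ℝ) - 1) * (w C * (P2 C : ℝ) - 2 * w C)
      rcases eq_or_ne (w C) 0 with h0 | h0
      · rw [h0]; simp
      · obtain ⟨i, j, hij, he, -⟩ := hw.top C h0
        have h2 : ((N : ℝ) + 1) * (P3 C : ℝ) ≤ (N : ℝ) * ((N : ℝ) - 1) * ((P2 C : ℝ) - 2) := by
          exact_mod_cast (hINQ N C).2.2.2.2.2 ⟨i, j, hij, he⟩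
        have h5 := mul_le_mul_of_nonneg_left h2 (hw.nonneg C)
        linarith

end Pool.Agent.Lib.MP7ec162.SP
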