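import Pool.Agent.Lib.MP_7ec162_pr.SP.Spec

set_option autoImplicit false

namespace Pool.Agent.Lib.MP7ec162.SP

open Finset

namespace FINM

lemma lower (hEXP : SpecEXP) (N : ℕ) (w : (Fin N → ℤ) → ℝ) (hN : 3 ≤ N) (hw : Stat N w) :
    1 + (((N : ℝ) + 1) ^ 2 + 8) / (((N : ℝ) - 1) * (7 * N + 3)) ≤ speed N w := by
  obtain ⟨x, y, h1, h2, h3, h4, h5⟩ := hEXP N w (by omega) hw
  rw [h1]
  have hn3 : (3 : ℝ) ≤ (N : ℝ) := by exact_mod_cast hN
  generalize (N : ℝ) = n at *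
  have hn : (0 : ℝ) < n := by linarith
  have hn1 : (0 : ℝ) < n - 1 := by linarith
  have h6 : (n - 1) * (n * ((n + 1) ^ 2 + 8)) ≤ (n - 1) * ((7 * n + 3) * x) := by
    have h7 : 4 * ((n + 1) * y) ≤ 4 * (n * (n - 1) * (x - 2)) := by linarith
    have h8 : 4 * ((n + 1) * y) = (n + 1) * (n * (n - 1) * (n + 1) - 3 * (n - 1) * x) := by
      rw [← h2]; ring
    rw [h8] at h7
    nlinarith
  have h9 := le_of_mul_le_mul_left h6 hn1
  have h10 : ((n + 1) ^ 2 + 8) / ((n - 1) * (7 * n + 3)) ≤ x / (n * (n - 1)) := by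
    rw [div_le_div_iff₀ (by positivity) (by positivity)]
    have h11 := mul_le_mul_of_nonneg_left h9 hn1.le
    nlinarith
  linarith

lemma upper (hEXP : SpecEXP) (N : ℕ) (w : (Fin N → ℤ) → ℝ) (hN : 4 ≤ N) (hw : Stat N w) :
    speed N w ≤ 5 / 4 + 2 / (3 * ((N : ℝ) - 1)) := by
  obtain ⟨x, y, h1, h2, h3, h4, h5⟩ := hEXP N w (by omega) hw
  rw [h1]
  have hn4 : (4 : ℝ) ≤ (N : ℝ) := by exact_mod_cast hN
  generalize (N : ℝ) = n at *
  have hn : (0 : ℝ) < n := by linarith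
  have hn1 : (0 : ℝ) < n - 1 := by linarith
  obtain ⟨q, hq⟩ : ∃ q, q = x / (n * (n - 1)) := ⟨_, rfl⟩
  have hx : x = n * (n - 1) * q := by
    rw [hq]; field_simp
  rw [← hq]
  have h6 : 4 * (n - 1) * q ^ 2 + (3 * n - 7) * q ≤ n + 1 := by
    have h7 : 4 * x ^ 2 ≤ n * (n * (n - 1) * (n + 1) - 3 * (n - 1) * x + 4 * x) := by
      have h8 : n * (n * (n - 1) * (n + 1) - 3 * (n - 1) * x + 4 * x) = 4 * (n * (y + x)) := by
        rw [← h2]; ring
      rw [h8]; linarith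
    rw [hx] at h7
    have h9 : (n ^ 2 * (n - 1)) * (4 * (n - 1) * q ^ 2 + (3 * n - 7) * q) ≤ (n ^ 2 * (n - 1)) * (n + 1) := by
      nlinarith
    exact le_of_mul_le_mul_left h9 (by positivity)
  obtain ⟨m, hm⟩ : ∃ m, m = n - 1 := ⟨_, rfl⟩
  have hnm : n = m + 1 := by rw [hm]; ring
  rw [hnm] at h6 ⊢
  rw [add_sub_cancel_right] at h6 ⊢
  have hm3 : 3 ≤ m := by linarith
  obtain ⟨c, hc⟩ : ∃ c, c = 2 / (3 * m) := ⟨_, rfl⟩
  have hmc : m * c = 2 / 3 := by
    rw [hc]; field_simp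
  have hc0 : 0 < c := by rw [hc]; positivity
  have hc1 : c ≤ 2 / 9 := by nlinarith
  rw [← hc]
  by_contra hcon
  push Not at hcon
  obtain ⟨d, hd⟩ : ∃ d, d = q - (1 / 4 + c) := ⟨_, rfl⟩
  have hd0 : 0 < d := by rw [hd]; linarith
  have hqd : q = 1 / 4 + c + d := by rw [hd]; ring
  have h10 : 4 * m * q ^ 2 + (3 * (m + 1) - 7) * q =
      (m + 2) + (5 * (m * c) + 4 * (m * c) * c - 4 * c - 3) + 8 * m * (1 / 4 + c) * d + 4 * m * d ^ 2 +
        (3 * m - 4) * d := by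
    rw [hqd]; ring
  rw [h10, hmc] at h6
  have h11 : 0 < 8 * m * (1 / 4 + c) * d := by positivity
  have h12 : 0 < 4 * m * d ^ 2 := by positivity
  have h13 : 0 < (3 * m - 4) * d := mul_pos (by linarith) hd0
  linarith

end FINM

open FINM in
theorem specFIN (hEXP : SpecEXP) : SpecFIN := by
  refine ⟨fun N w hN hw => lower hEXP N w hN hw, fun N w hN hw => upper hEXP N w hN hw, ?_⟩
  intro N M w w' h hw hw'
  have key : ∀ (K : ℝ), 4 ≤ M → 0 < K → K ≤ (M : ℝ) - 1 → speed M w' ≤ 5 / 4 + 2 / (3 * K) := by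
    intro K hM hK hKM
    refine (upper hEXP M w' hM hw').trans ?_
    have : 2 / (3 * ((M : ℝ) - 1)) ≤ 2 / (3 * K) :=
      div_le_div_of_nonneg_left (by norm_num) (by positivity) (by linarith)
    linarith
  rcases h with ⟨rfl, hM⟩ | ⟨rfl, hM⟩ | ⟨rfl, hM⟩ | ⟨rfl, hM⟩
  · have h1 := lower hEXP 3 w (by norm_num) hw
    have h2 : (4 : ℝ) ≤ (M : ℝ) := by exact_mod_cast hM
    have h3 := key 3 (by omega) (by norm_num) (by linarith)
    norm_num at h1 h3
    linarith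
  · have h1 := lower hEXP 4 w (by norm_num) hw
    have h2 : (8 : ℝ) ≤ (M : ℝ) := by exact_mod_cast hM
    have h3 := key 7 (by omega) (by norm_num) (by linarith)
    norm_num at h1 h3
    linarith
  · have h1 := lower hEXP 5 w (by norm_num) hw
    have h2 : (18 : ℝ) ≤ (M : ℝ) := by exact_mod_cast hM
    have h3 := key 17 (by omega) (by norm_num) (by linarith)
    norm_num at h1 h3
    linarith
  · have h1 := lower hEXP 6 w (by norm_num) hw
    have h2 : (202 : ℝ) ≤ (M : ℝ) := by exact_mod_cast hM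
    have h3 := key 201 (by omega) (by norm_num) (by linarith)
    norm_num at h1 h3
    linarith

end Pool.Agent.Lib.MP7ec162.SP
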