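import Pool.Agent.Lib.MP_7ec162_pr.SP.Spec

/-! # Module INQ: the two counting inequalities for equal pairs and triples -/

set_option autoImplicit false

namespace Pool.Agent.Lib.MP7ec162.SP

open Finset

namespace INQM

lemma En_eq_card {N : ℕ} (C : Fin N → ℤ) (i : Fin N) :
    En C i = ((univ.filter (fun j : Fin N => i ≠ j ∧ C j = C i)).card : ℤ) := by
  unfold En
  rw [Finset.card_filter]
  push_cast
  rfl

lemma En_nonneg {N : ℕ} (C : Fin N → ℤ) (i : Fin N) : 0 ≤ En C i := by
  rw [En_eq_card]; positivity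

lemma En_le {N : ℕ} (C : Fin N → ℤ) (i : Fin N) : En C i ≤ N - 1 := by
  rw [En_eq_card]
  have h1 : (univ.filter (fun j : Fin N => i ≠ j ∧ C j = C i)) ⊆ univ.erase i := by
    intro j hj
    simp only [mem_filter, mem_univ, true_and] at hj
    exact mem_erase.mpr ⟨fun h => hj.1 h.symm, mem_univ _⟩
  have h2 := card_le_card h1
  rw [card_erase_of_mem (mem_univ i), card_univ, Fintype.card_fin] at h2
  have h3 : 0 < N := i.pos
  omega

lemma En_succ {N : ℕ} (C : Fin N → ℤ) (i : Fin N) :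
    ((univ.filter (fun j : Fin N => C j = C i)).card : ℤ) = En C i + 1 := by
  rw [En_eq_card]
  have h1 : (univ.filter (fun j : Fin N => i ≠ j ∧ C j = C i))
      = (univ.filter (fun j : Fin N => C j = C i)).erase i := by
    ext j
    simp only [mem_filter, mem_univ, true_and, mem_erase]
    exact ⟨fun h => ⟨fun e => h.1 e.symm, h.2⟩, fun h => ⟨fun e => h.1 e.symm, h.2⟩⟩
  have h0 : i ∈ univ.filter (fun j : Fin N => C j = C i) := by simp
  rw [h1, card_erase_of_mem h0]
  have h2 : 0 < (univ.filter (fun j : Fin N => C j = C i)).card := card_pos.mpr ⟨i, h0⟩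
  omega

/-- the weight `2/(e+1)`, `0` for `e = 0` -/
noncomputable def wt (e : ℤ) : ℝ := if 1 ≤ e then 2 / ((e : ℝ) + 1) else 0

lemma wt_nonneg (e : ℤ) : 0 ≤ wt e := by
  unfold wt
  split_ifs with h
  · have : (1 : ℝ) ≤ (e : ℝ) := by exact_mod_cast h
    positivity
  · exact le_rfl

lemma one_term (N : ℕ) (e : ℤ) (h0 : 0 ≤ e) (h1 : e ≤ N - 1) :
    ((N : ℝ) + 1) * ((e : ℝ) * ((e : ℝ) - 1)) ≤ (N : ℝ) * ((N : ℝ) - 1) * ((e : ℝ) - wt e) := by
  unfold wt
  split_ifs with h
  · have he : (1 : ℝ) ≤ (e : ℝ) := by exact_mod_cast h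
    have hN : (e : ℝ) ≤ (N : ℝ) - 1 := by exact_mod_cast h1
    have hp : (0 : ℝ) < (e : ℝ) + 1 := by linarith
    have key : 0 ≤ ((e : ℝ) - 1) * (((N : ℝ) - e - 1) * (((e : ℝ) + 2) * N + e)) := by
      apply mul_nonneg (by linarith)
      apply mul_nonneg (by linarith)
      have : (0 : ℝ) ≤ N := Nat.cast_nonneg N
      nlinarith
    have e1 : (N : ℝ) * ((N : ℝ) - 1) * ((e : ℝ) - 2 / ((e : ℝ) + 1)) - ((N : ℝ) + 1) * ((e : ℝ) * ((e : ℝ) - 1))
        = ((e : ℝ) - 1) * (((N : ℝ) - e - 1) * (((e : ℝ) + 2) * N + e)) / ((e : ℝ) + 1) := by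
      field_simp
      ring
    have e2 : 0 ≤ ((e : ℝ) - 1) * (((N : ℝ) - e - 1) * (((e : ℝ) + 2) * N + e)) / ((e : ℝ) + 1) :=
      div_nonneg key hp.le
    linarith
  · have he : e = 0 := by omega
    subst he
    simp

lemma sum_wt {N : ℕ} (C : Fin N → ℤ) (h : ∃ i j : Fin N, i ≠ j ∧ C i = C j) :
    2 ≤ ∑ i, wt (En C i) := by
  obtain ⟨i, j, hij, hC⟩ := h
  have hpos : 1 ≤ En C i := by
    rw [En_eq_card]
    have : 0 < (univ.filter (fun j : Fin N => i ≠ j ∧ C j = C i)).card :=
      card_pos.mpr ⟨j, by simp [hij, hC]⟩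
    exact_mod_cast this
  have hk : ∀ k ∈ univ.filter (fun k : Fin N => C k = C i), wt (En C k) = 2 / ((En C i : ℝ) + 1) := by
    intro k hk
    simp only [mem_filter, mem_univ, true_and] at hk
    have h1 : En C k = En C i := by
      have a := En_succ C k
      have b := En_succ C i
      rw [hk] at a
      linarith
    rw [h1]
    unfold wt
    rw [if_pos hpos]
  have h2 : ∑ k ∈ univ.filter (fun k : Fin N => C k = C i), wt (En C k) ≤ ∑ k, wt (En C k) :=
    sum_le_sum_of_subset_of_nonneg (filter_subset _ _) (fun k _ _ => wt_nonneg _)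
  rw [sum_congr rfl hk, sum_const, nsmul_eq_mul] at h2
  have h3 : (((univ.filter (fun k : Fin N => C k = C i)).card : ℕ) : ℝ) = (En C i : ℝ) + 1 := by
    exact_mod_cast En_succ C i
  rw [h3] at h2
  have h4 : (0 : ℝ) < (En C i : ℝ) + 1 := by
    have : (1 : ℝ) ≤ (En C i : ℝ) := by exact_mod_cast hpos
    linarith
  rw [mul_div_cancel₀ _ h4.ne'] at h2
  exact h2

end INQM

open INQM in
theorem specINQ : SpecINQ := by
  intro N C
  have hN0 : (0 : ℤ) ≤ N := Int.natCast_nonneg N
  refine ⟨?_, ?_, ?_, ?_, ?_, ?_⟩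
  · have h := sq_sum_le_card_mul_sum_sq (s := (univ : Finset (Fin N))) (f := fun i => En C i)
    have h2 : P3 C + P2 C = ∑ i, En C i ^ 2 := by
      unfold P3 P2
      rw [← sum_add_distrib]
      apply sum_congr rfl
      intro i _
      ring
    rw [h2]
    unfold P2
    simpa using h
  · exact sum_nonneg fun i _ => En_nonneg C i
  · unfold P2
    calc ∑ i, En C i ≤ ∑ _i : Fin N, ((N : ℤ) - 1) := sum_le_sum fun i _ => En_le C i
      _ = N * (N - 1) := by
        rw [sum_const, card_univ, Fintype.card_fin, nsmul_eq_mul]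
  · apply sum_nonneg
    intro i _
    have h := En_nonneg C i
    rcases h.eq_or_lt with h | h
    · rw [← h]; simp
    · exact mul_nonneg h.le (by omega)
  · unfold P3
    have h1 : ∑ i, En C i * (En C i - 1) ≤ ∑ _i : Fin N, ((N : ℤ) - 1) * (N - 2) := by
      apply sum_le_sum
      intro i _
      have a := En_nonneg C i
      have b := En_le C i
      have c : (1 : ℤ) ≤ N := by
        have := i.pos
        omega
      have d : 0 ≤ ((N : ℤ) - 1 - En C i) * ((N : ℤ) - 2 + En C i) := by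
        rcases Nat.lt_or_ge N 2 with h | h
        · have hN : (N : ℤ) = 1 := by omega
          have : En C i = 0 := by omega
          rw [hN, this]; norm_num
        · apply mul_nonneg <;> omega
      nlinarith
    have h2 : ∑ _i : Fin N, ((N : ℤ) - 1) * (N - 2) = N * (N - 1) * (N - 2) := by
      simp
      ring
    linarith
  · intro h
    have h1 := sum_wt C h
    have h2 : ∑ i, ((N : ℝ) + 1) * ((En C i : ℝ) * ((En C i : ℝ) - 1)) ≤
        ∑ i, (N : ℝ) * ((N : ℝ) - 1) * ((En C i : ℝ) - wt (En C i)) :=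
      sum_le_sum fun i _ => one_term N _ (En_nonneg C i) (En_le C i)
    rw [← mul_sum, ← mul_sum, sum_sub_distrib] at h2
    have hN1 : (0 : ℝ) ≤ (N : ℝ) * ((N : ℝ) - 1) := by
      obtain ⟨i, _⟩ := h
      have : 1 ≤ N := i.pos
      have : (1 : ℝ) ≤ N := by exact_mod_cast this
      exact mul_nonneg (by linarith) (by linarith)
    have h3 : ((N : ℝ) + 1) * (P3 C : ℝ) ≤ (N : ℝ) * ((N : ℝ) - 1) * ((P2 C : ℝ) - 2) := by
      have e1 : (P3 C : ℝ) = ∑ i, (En C i : ℝ) * ((En C i : ℝ) - 1) := by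
        unfold P3; push_cast; rfl
      have e2 : (P2 C : ℝ) = ∑ i, (En C i : ℝ) := by
        unfold P2; push_cast; rfl
      rw [e1, e2]
      refine h2.trans ?_
      apply mul_le_mul_of_nonneg_left _ hN1
      linarith
    exact_mod_cast h3

end Pool.Agent.Lib.MP7ec162.SP
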