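import Pool.Agent.Lib.MP_7ec162_pr.SP.Spec

/-!
# MP_7ec162, module STA: stationarity for unbounded functions with bounded increments
-/

set_option autoImplicit false

namespace Pool.Agent.Lib.MP7ec162.SP

open Finset

noncomputable section

namespace STAM

theorem den_pos {N : ℕ} (hN : 2 ≤ N) : (0 : ℝ) < (N : ℝ) * ((N : ℝ) - 1) := by
  have h : (2 : ℝ) ≤ (N : ℝ) := by exact_mod_cast hN
  have h1 : (0 : ℝ) < (N : ℝ) - 1 := by linarith
  positivity

theorem avg_const {N : ℕ} (hN : 2 ≤ N) (c : ℝ) : avg (fun _ _ : Fin N => c) = c := by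
  unfold avg
  have h1 : ∀ i : Fin N, (∑ j : Fin N, if i = j then (0 : ℝ) else c) = (N : ℝ) * c - c := by
    intro i
    have h2 : ∀ j : Fin N, (if i = j then (0 : ℝ) else c) = c - (if i = j then c else 0) := by
      intro j
      by_cases h : i = j
      · rw [if_pos h, if_pos h, sub_self]
      · rw [if_neg h, if_neg h, sub_zero]
    rw [Finset.sum_congr rfl (fun j _ => h2 j), Finset.sum_sub_distrib, Finset.sum_ite_eq]
    simp
  rw [Finset.sum_congr rfl (fun i _ => h1 i)]
  simp only [Finset.sum_const, Finset.card_univ, Fintype.card_fin, nsmul_eq_mul]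
  have h3 := den_pos hN
  rw [div_eq_iff h3.ne']
  ring

theorem avg_mono {N : ℕ} (hN : 2 ≤ N) {f g : Fin N → Fin N → ℝ} (h : ∀ i j, f i j ≤ g i j) :
    avg f ≤ avg g := by
  unfold avg
  apply div_le_div_of_nonneg_right _ (den_pos hN).le
  refine Finset.sum_le_sum fun i _ => Finset.sum_le_sum fun j _ => ?_
  by_cases hij : i = j
  · rw [if_pos hij, if_pos hij]
  · rw [if_neg hij, if_neg hij]
    exact h i j

theorem avg_abs {N : ℕ} (hN : 2 ≤ N) {f : Fin N → Fin N → ℝ} {B : ℝ} (h : ∀ i j, |f i j| ≤ B) :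
    |avg f| ≤ B := by
  rw [abs_le]
  constructor
  · have h1 := avg_mono hN (f := fun _ _ => -B) (g := f) (fun i j => (abs_le.1 (h i j)).1)
    rw [avg_const hN] at h1
    exact h1
  · have h1 := avg_mono hN (f := f) (g := fun _ _ => B) (fun i j => (abs_le.1 (h i j)).2)
    rw [avg_const hN] at h1
    exact h1

theorem avg_sub_const {N : ℕ} (hN : 2 ≤ N) (f : Fin N → Fin N → ℝ) (c : ℝ) :
    avg (fun i j => f i j - c) = avg f - c := by
  have h1 : avg (fun i j => f i j - c) = avg f - avg (fun _ _ : Fin N => c) := by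
    unfold avg
    rw [← sub_div, ← Finset.sum_sub_distrib]
    congr 1
    refine Finset.sum_congr rfl fun i _ => ?_
    rw [← Finset.sum_sub_distrib]
    refine Finset.sum_congr rfl fun j _ => ?_
    by_cases hij : i = j
    · rw [if_pos hij, if_pos hij, if_pos hij, sub_zero]
    · rw [if_neg hij, if_neg hij, if_neg hij]
  rw [h1, avg_const hN]

theorem sum_of_bd {N : ℕ} {w : (Fin N → ℤ) → ℝ} (hw : Stat N w) {g : (Fin N → ℤ) → ℝ} {B : ℝ}
    (hg : ∀ C, |g C| ≤ B) : Summable fun C => w C * g C := by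
  refine Summable.of_norm_bounded (g := fun C => w C * B) (hw.one.summable.mul_right B) fun C => ?_
  rw [Real.norm_eq_abs, abs_mul, abs_of_nonneg (hw.nonneg C)]
  exact mul_le_mul_of_nonneg_left (hg C) (hw.nonneg C)

/-- The truncated function. -/
theorem trunc {N : ℕ} {w : (Fin N → ℤ) → ℝ} {φ : (Fin N → ℤ) → ℝ} (hN : 2 ≤ N) (hw : Stat N w)
    (hφ : GapFun φ) (h0 : ∀ C, 0 ≤ φ C) (M : ℕ) :
    ∑' C, w C * avg (fun i j => min (φ (inc i j C)) (M : ℝ) - min (φ C) (M : ℝ)) = 0 := by
  have hM : (0 : ℝ) ≤ (M : ℝ) := Nat.cast_nonneg M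
  have hb : ∀ C, |min (φ C) (M : ℝ)| ≤ (M : ℝ) := by
    intro C
    rw [abs_of_nonneg (le_min (h0 C) hM)]
    exact min_le_right _ _
  have hg : GapFun fun C => min (φ C) (M : ℝ) := by
    refine ⟨fun C c => ?_, fun C s => ?_⟩
    · show min (φ (fun k => C k + c)) (M : ℝ) = min (φ C) (M : ℝ)
      rw [hφ.1 C c]
    · show min (φ (C ∘ s)) (M : ℝ) = min (φ C) (M : ℝ)
      rw [hφ.2 C s]
  have hinv := hw.inv (fun C => min (φ C) (M : ℝ)) hg ⟨M, hb⟩
  have hs1 : Summable fun C => w C * min (φ C) (M : ℝ) := sum_of_bd hw hb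
  have hs2 : Summable fun C => w C * avg (fun i j => min (φ (inc i j C)) (M : ℝ)) :=
    sum_of_bd hw (B := (M : ℝ)) fun C => avg_abs hN fun i j => hb (inc i j C)
  have h1 : ∀ C, w C * avg (fun i j => min (φ (inc i j C)) (M : ℝ) - min (φ C) (M : ℝ)) =
      w C * avg (fun i j => min (φ (inc i j C)) (M : ℝ)) - w C * min (φ C) (M : ℝ) := by
    intro C
    rw [avg_sub_const hN]
    ring
  rw [tsum_congr h1, hs2.tsum_sub hs1, ← hinv, sub_self]

end STAM

open Filter Topology in
theorem specSTA : SpecSTA := by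
  intro N w φ B hN hw hφ h0 hB
  have hlim : Tendsto
      (fun M : ℕ => ∑' C, w C * avg (fun i j => min (φ (inc i j C)) (M : ℝ) - min (φ C) (M : ℝ)))
      atTop (𝓝 (∑' C, w C * avg (fun i j => φ (inc i j C) - φ C))) := by
    refine tendsto_tsum_of_dominated_convergence (bound := fun C => w C * B)
      (hw.one.summable.mul_right B) (fun C => ?_) (Eventually.of_forall fun M C => ?_)
    · have h1 : ∀ᶠ M : ℕ in atTop, φ C ≤ (M : ℝ) :=
        tendsto_natCast_atTop_atTop.eventually_ge_atTop (φ C)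
      have h2 : ∀ᶠ M : ℕ in atTop, ∀ i j, φ (inc i j C) ≤ (M : ℝ) := by
        rw [eventually_all]
        intro i
        rw [eventually_all]
        intro j
        exact tendsto_natCast_atTop_atTop.eventually_ge_atTop (φ (inc i j C))
      refine tendsto_const_nhds.congr' ?_
      filter_upwards [h1, h2] with M hM1 hM2
      have h3 : (fun i j => min (φ (inc i j C)) (M : ℝ) - min (φ C) (M : ℝ)) =
          fun i j => φ (inc i j C) - φ C := by
        funext i j
        rw [min_eq_left (hM2 i j), min_eq_left hM1]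
      rw [h3]
    · rw [Real.norm_eq_abs, abs_mul, abs_of_nonneg (hw.nonneg C)]
      refine mul_le_mul_of_nonneg_left (STAM.avg_abs hN fun i j => ?_) (hw.nonneg C)
      refine (abs_min_sub_min_le_max _ _ _ _).trans ?_
      rw [sub_self, abs_zero]
      exact max_le (hB C i j) ((abs_nonneg _).trans (hB C i j))
  have hz : Tendsto
      (fun M : ℕ => ∑' C, w C * avg (fun i j => min (φ (inc i j C)) (M : ℝ) - min (φ C) (M : ℝ)))
      atTop (𝓝 0) := by
    have h1 : (fun M : ℕ => ∑' C, w C *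
        avg (fun i j => min (φ (inc i j C)) (M : ℝ) - min (φ C) (M : ℝ))) = fun _ => 0 := by
      funext M
      exact STAM.trunc hN hw hφ h0 M
    rw [h1]
    exact tendsto_const_nhds
  exact tendsto_nhds_unique hlim hz

end

end Pool.Agent.Lib.MP7ec162.SP
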