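import Pool.Agent.Lib.MP_7ec162_pr.SP.Spec

/-!
# MP_7ec162: module SUM (helper77)
-/

set_option autoImplicit false

namespace Pool.Agent.Lib.MP7ec162.SP

open Finset

noncomputable section

namespace SUMM

lemma incr {N : ℕ} (C : Fin N → ℤ) (i j : Fin N) (hij : i ≠ j) :
    (∑ k, inc i j C k) - ∑ k, C k = 1 + if C j = C i then 1 else 0 := by
  rw [← Finset.sum_sub_distrib]
  have h1 : ∀ k, inc i j C k - C k =
      (if k = i then (if C i ≤ C j then (1 : ℤ) else 0) else 0) +
        (if k = j then (if C j ≤ C i then (1 : ℤ) else 0) else 0) := by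
    intro k
    unfold inc
    by_cases hi : k = i
    · have hj : k ≠ j := fun h => hij (hi.symm.trans h)
      by_cases h : C i ≤ C j
      · rw [if_pos (Or.inl ⟨hi, h⟩), if_pos hi, if_pos h, if_neg hj]
        ring
      · have hn : ¬ ((k = i ∧ C i ≤ C j) ∨ (k = j ∧ C j ≤ C i)) := by
          rintro (h' | h')
          · exact h h'.2
          · exact hj h'.1
        rw [if_neg hn, if_pos hi, if_neg h, if_neg hj]
        ring
    · by_cases hj : k = j
      · by_cases h : C j ≤ C i
        · rw [if_pos (Or.inr ⟨hj, h⟩), if_neg hi, if_pos hj, if_pos h]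
          ring
        · have hn : ¬ ((k = i ∧ C i ≤ C j) ∨ (k = j ∧ C j ≤ C i)) := by
            rintro (h' | h')
            · exact hi h'.1
            · exact h h'.2
          rw [if_neg hn, if_neg hi, if_pos hj, if_neg h]
          ring
      · have hn : ¬ ((k = i ∧ C i ≤ C j) ∨ (k = j ∧ C j ≤ C i)) := by
          rintro (h' | h')
          · exact hi h'.1
          · exact hj h'.1
        rw [if_neg hn, if_neg hi, if_neg hj]
        ring
  rw [Finset.sum_congr rfl (fun k _ => h1 k), Finset.sum_add_distrib, Finset.sum_ite_eq',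
    Finset.sum_ite_eq', if_pos (Finset.mem_univ _), if_pos (Finset.mem_univ _)]
  rcases lt_trichotomy (C i) (C j) with h | h | h
  · rw [if_pos h.le, if_neg (not_le.2 h), if_neg h.ne']
  · rw [if_pos h.le, if_pos h.ge, if_pos h.symm]
  · rw [if_neg (not_le.2 h), if_pos h.le, if_neg h.ne]
    ring

lemma pairs (N : ℕ) : ∑ i : Fin N, ∑ j : Fin N, (if i = j then (0 : ℝ) else 1) =
    (N : ℝ) * ((N : ℝ) - 1) := by
  have h1 : ∀ i : Fin N, ∑ j : Fin N, (if i = j then (0 : ℝ) else 1) = (N : ℝ) - 1 := by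
    intro i
    have h2 : ∀ j : Fin N, (if i = j then (0 : ℝ) else 1) = 1 - if i = j then 1 else 0 := by
      intro j
      split_ifs <;> ring
    rw [Finset.sum_congr rfl (fun j _ => h2 j), Finset.sum_sub_distrib, Finset.sum_ite_eq,
      if_pos (Finset.mem_univ _)]
    simp
  rw [Finset.sum_congr rfl (fun i _ => h1 i), Finset.sum_const, Finset.card_univ, Fintype.card_fin,
    nsmul_eq_mul]

end SUMM

theorem specSUM : SpecSUM := by
  intro N C hN
  unfold avg
  have hN' : (2 : ℝ) ≤ (N : ℝ) := by exact_mod_cast hN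
  have hpos : (N : ℝ) * ((N : ℝ) - 1) ≠ 0 := by
    apply mul_ne_zero <;> linarith
  have h1 : ∀ i j : Fin N, (if i = j then (0 : ℝ) else
      ((∑ k, inc i j C k : ℤ) : ℝ) - ((∑ k, C k : ℤ) : ℝ)) =
      (if i = j then (0 : ℝ) else 1) + (((if i ≠ j ∧ C j = C i then 1 else 0 : ℤ)) : ℝ) := by
    intro i j
    by_cases h : i = j
    · rw [if_pos h, if_pos h, if_neg (fun h' => h'.1 h)]
      simp
    · rw [if_neg h, if_neg h, ← Int.cast_sub, SUMM.incr C i j h]
      by_cases h' : C j = C i
      · rw [if_pos h', if_pos ⟨h, h'⟩]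
        push_cast
        ring
      · rw [if_neg h', if_neg (fun h'' => h' h''.2)]
        push_cast
        ring
  have h2 : (∑ i : Fin N, ∑ j : Fin N, (if i = j then (0 : ℝ) else
      ((∑ k, inc i j C k : ℤ) : ℝ) - ((∑ k, C k : ℤ) : ℝ))) =
      (N : ℝ) * ((N : ℝ) - 1) + (P2 C : ℝ) := by
    rw [Finset.sum_congr rfl (fun i _ => Finset.sum_congr rfl (fun j _ => h1 i j))]
    simp only [Finset.sum_add_distrib]
    rw [SUMM.pairs]
    unfold P2 En
    push_cast
    rfl
  rw [h2, add_div, div_self hpos]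

end

end Pool.Agent.Lib.MP7ec162.SP
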