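import Pool.Agent.Lib.MP_7ec162_pr.SP.Spec

/-!
# TRD (MP_7ec162_pr): inclusion and exclusion for triples of counters

Over all triples of indices (not only distinct ones) the indicator of three different values is
`1 - e_ij - e_jk - e_ik + 2 e_ij e_ik`; with `F_i = E_i + 1` the sum is
`N^3 - 3 N ∑ F_i + 2 ∑ F_i^2`.
-/

set_option autoImplicit false

namespace Pool.Agent.Lib.MP7ec162.SP

open Finset

namespace TRDM

/-- the number of counters equal to `C i`, with `i` -/
def F {N : ℕ} (C : Fin N → ℤ) (i : Fin N) : ℤ := ∑ j, if C j = C i then 1 else 0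

lemma F_eq {N : ℕ} (C : Fin N → ℤ) (i : Fin N) : F C i = En C i + 1 := by
  unfold F En
  have h : ∀ j : Fin N, (if C j = C i then (1 : ℤ) else 0) =
      (if i ≠ j ∧ C j = C i then 1 else 0) + (if i = j then 1 else 0) := by
    intro j
    by_cases hj : i = j
    · subst hj; simp
    · simp [hj]
  rw [Finset.sum_congr rfl fun j _ => h j, Finset.sum_add_distrib]
  simp

lemma pt (a b c : ℤ) : (if a ≠ b ∧ b ≠ c ∧ a ≠ c then (1 : ℤ) else 0) =
    1 - (if b = a then 1 else 0) - (if c = b then 1 else 0) - (if c = a then 1 else 0) +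
      2 * ((if b = a then 1 else 0) * (if c = a then 1 else 0)) := by
  by_cases h1 : b = a
  · subst h1
    by_cases h2 : c = b
    · subst h2; simp
    · simp [h2]
  · by_cases h2 : c = a
    · subst h2
      simp [h1, Ne.symm h1]
    · by_cases h3 : c = b
      · subst h3
        simp [h1, Ne.symm h1]
      · simp [h1, h2, h3, Ne.symm h1, Ne.symm h2, Ne.symm h3]

lemma sum_F {N : ℕ} (C : Fin N → ℤ) : ∑ i, F C i = P2 C + N := by
  simp only [F_eq, Finset.sum_add_distrib, P2]
  simp

lemma sum_FF {N : ℕ} (C : Fin N → ℤ) : ∑ i, F C i * F C i = P3 C + 3 * P2 C + N := by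
  have h : ∀ i : Fin N, F C i * F C i = En C i * (En C i - 1) + 3 * En C i + 1 := by
    intro i
    rw [F_eq]
    ring
  rw [Finset.sum_congr rfl fun i _ => h i, Finset.sum_add_distrib, Finset.sum_add_distrib,
    ← Finset.mul_sum]
  simp [P2, P3]

end TRDM

open TRDM in
theorem specTRD : SpecTRD := by
  intro N C
  have h1 : D3 C = ∑ i : Fin N, ∑ j : Fin N, ∑ k : Fin N,
      (1 - (if C j = C i then 1 else 0) - (if C k = C j then 1 else 0) -
        (if C k = C i then 1 else 0) +
        2 * ((if C j = C i then 1 else 0) * (if C k = C i then 1 else 0)) : ℤ) := by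
    unfold D3
    refine Finset.sum_congr rfl fun i _ => Finset.sum_congr rfl fun j _ =>
      Finset.sum_congr rfl fun k _ => ?_
    exact pt (C i) (C j) (C k)
  have h2 : ∀ i j : Fin N, ∑ k : Fin N,
      (1 - (if C j = C i then 1 else 0) - (if C k = C j then 1 else 0) -
        (if C k = C i then 1 else 0) +
        2 * ((if C j = C i then 1 else 0) * (if C k = C i then 1 else 0)) : ℤ) =
      N - N * (if C j = C i then 1 else 0) - F C j - F C i +
        2 * ((if C j = C i then 1 else 0) * F C i) := by
    intro i j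
    rw [Finset.sum_add_distrib, Finset.sum_sub_distrib, Finset.sum_sub_distrib,
      Finset.sum_sub_distrib, ← Finset.mul_sum, ← Finset.mul_sum]
    simp only [Finset.sum_const, Finset.card_univ, Fintype.card_fin, nsmul_eq_mul, mul_one]
    rfl
  have h3 : ∀ i : Fin N, ∑ j : Fin N, ((N : ℤ) - N * (if C j = C i then 1 else 0) - F C j - F C i +
        2 * ((if C j = C i then 1 else 0) * F C i)) =
      N * N - N * F C i - (P2 C + N) - N * F C i + 2 * (F C i * F C i) := by
    intro i
    rw [Finset.sum_add_distrib, Finset.sum_sub_distrib, Finset.sum_sub_distrib,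
      Finset.sum_sub_distrib, ← Finset.mul_sum, ← Finset.mul_sum, ← Finset.sum_mul, sum_F]
    simp only [Finset.sum_const, Finset.card_univ, Fintype.card_fin, nsmul_eq_mul]
    rfl
  rw [h1, Finset.sum_congr rfl fun i _ => Finset.sum_congr rfl fun j _ => h2 i j,
    Finset.sum_congr rfl fun i _ => h3 i]
  rw [Finset.sum_add_distrib, Finset.sum_sub_distrib, Finset.sum_sub_distrib,
    Finset.sum_sub_distrib]
  simp only [← Finset.mul_sum, sum_F, sum_FF]
  simp only [Finset.sum_const, Finset.card_univ, Fintype.card_fin, nsmul_eq_mul]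
  ring

end Pool.Agent.Lib.MP7ec162.SP
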