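import Pool.Agent.Lib.MP_7ec162_pr.SP.Spec

/-!
# TRP: the sum over triples
-/

set_option autoImplicit false

namespace Pool.Agent.Lib.MP7ec162.SP

open Finset

namespace TRPM

/-- the summand -/
def g {N : ℕ} (C : Fin N → ℤ) (i j k : Fin N) : ℤ :=
  if i ≠ j ∧ j ≠ k ∧ i ≠ k ∧ C i ≤ C j then (if C k ≤ C i then (1 : ℤ) else -1) else 0

/-- equality of two different counters -/
def e {N : ℕ} (C : Fin N → ℤ) (i j : Fin N) : ℤ := if i ≠ j ∧ C j = C i then 1 else 0

/-- three different values -/
def d {N : ℕ} (C : Fin N → ℤ) (i j k : Fin N) : ℤ := if C i ≠ C j ∧ C j ≠ C k ∧ C i ≠ C k then 1 else 0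

/-- the summand as a function of the values -/
def v (x y z : ℤ) : ℤ := if x ≤ y then (if z ≤ x then (1 : ℤ) else -1) else 0

theorem six (x y z : ℤ) : v x y z + v x z y + v y x z + v y z x + v z x y + v z y x =
    6 * (if y = x ∧ z = x then 1 else 0) - (if x ≠ y ∧ y ≠ z ∧ x ≠ z then 1 else 0) := by
  unfold v
  split_ifs <;> omega

theorem g_ne {N : ℕ} (C : Fin N → ℤ) (i j k : Fin N) (h1 : i ≠ j) (h2 : j ≠ k) (h3 : i ≠ k) :
    g C i j k = v (C i) (C j) (C k) := by
  unfold g v
  by_cases h : C i ≤ C j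
  · rw [if_pos ⟨h1, h2, h3, h⟩, if_pos h]
  · rw [if_neg (fun c => h c.2.2.2), if_neg h]

theorem g_zero {N : ℕ} (C : Fin N → ℤ) (i j k : Fin N) (h : i = j ∨ j = k ∨ i = k) : g C i j k = 0 := by
  unfold g
  rw [if_neg]
  rintro ⟨h1, h2, h3, -⟩
  rcases h with h | h | h
  · exact h1 h
  · exact h2 h
  · exact h3 h

theorem d_zero {N : ℕ} (C : Fin N → ℤ) (i j k : Fin N) (h : i = j ∨ j = k ∨ i = k) : d C i j k = 0 := by
  unfold d
  rw [if_neg]
  rintro ⟨h1, h2, h3⟩
  rcases h with h | h | h
  · exact h1 (by rw [h])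
  · exact h2 (by rw [h])
  · exact h3 (by rw [h])

theorem t_zero {N : ℕ} (C : Fin N → ℤ) (i j k : Fin N) (h : i = j ∨ j = k ∨ i = k) :
    e C i j * e C i k - (if j = k then e C i j else 0) = 0 := by
  by_cases hjk : j = k
  · subst hjk
    rw [if_pos rfl]
    unfold e
    split_ifs <;> norm_num
  · rw [if_neg hjk, sub_zero]
    rcases h with h | h | h
    · have : e C i j = 0 := by
        unfold e; rw [if_neg (fun c => c.1 h)]
      rw [this, zero_mul]
    · exact absurd h hjk
    · have : e C i k = 0 := by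
        unfold e; rw [if_neg (fun c => c.1 h)]
      rw [this, mul_zero]

theorem t_ne {N : ℕ} (C : Fin N → ℤ) (i j k : Fin N) (h1 : i ≠ j) (h2 : j ≠ k) (h3 : i ≠ k) :
    e C i j * e C i k - (if j = k then e C i j else 0) = if C j = C i ∧ C k = C i then 1 else 0 := by
  rw [if_neg h2, sub_zero]
  unfold e
  by_cases ha : C j = C i
  · by_cases hb : C k = C i
    · rw [if_pos ⟨h1, ha⟩, if_pos ⟨h3, hb⟩, if_pos ⟨ha, hb⟩]; norm_num
    · rw [if_pos ⟨h1, ha⟩, if_neg (fun c => hb c.2), if_neg (fun c => hb c.2)]; norm_num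
  · rw [if_neg (show ¬ (i ≠ j ∧ C j = C i) from fun c => ha c.2), zero_mul, if_neg (fun c => ha c.1)]

theorem point {N : ℕ} (C : Fin N → ℤ) (i j k : Fin N) :
    g C i j k + g C i k j + g C j i k + g C j k i + g C k i j + g C k j i =
      6 * (e C i j * e C i k - (if j = k then e C i j else 0)) - d C i j k := by
  by_cases h : i = j ∨ j = k ∨ i = k
  · rw [t_zero C i j k h, d_zero C i j k h, g_zero C i j k h]
    have h' : i = j ∨ j = k ∨ i = k := h
    rw [g_zero C i k j (by rcases h' with a | a | a
                           · right; right; exact a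
                           · right; left; exact a.symm
                           · left; exact a),
      g_zero C j i k (by rcases h' with a | a | a
                         · left; exact a.symm
                         · right; right; exact a
                         · right; left; exact a),
      g_zero C j k i (by rcases h' with a | a | a
                         · right; right; exact a.symm
                         · left; exact a
                         · right; left; exact a.symm),
      g_zero C k i j (by rcases h' with a | a | a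
                         · right; left; exact a
                         · right; right; exact a.symm
                         · left; exact a.symm),
      g_zero C k j i (by rcases h' with a | a | a
                         · right; left; exact a.symm
                         · left; exact a.symm
                         · right; right; exact a.symm)]
    norm_num
  · have h1 : i ≠ j := fun a => h (Or.inl a)
    have h2 : j ≠ k := fun a => h (Or.inr (Or.inl a))
    have h3 : i ≠ k := fun a => h (Or.inr (Or.inr a))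
    rw [t_ne C i j k h1 h2 h3, g_ne C i j k h1 h2 h3, g_ne C i k j h3 h2.symm h1, g_ne C j i k h1.symm h3 h2,
      g_ne C j k i h2 h3.symm h1.symm, g_ne C k i j h3.symm h1 h2.symm, g_ne C k j i h2.symm h1.symm h3.symm]
    unfold d
    exact six (C i) (C j) (C k)

theorem swap23 {N : ℕ} (f : Fin N → Fin N → Fin N → ℤ) : ∑ i, ∑ j, ∑ k, f i k j = ∑ i, ∑ j, ∑ k, f i j k :=
  Finset.sum_congr rfl fun _ _ => Finset.sum_comm

theorem swap12 {N : ℕ} (f : Fin N → Fin N → Fin N → ℤ) : ∑ i, ∑ j, ∑ k, f j i k = ∑ i, ∑ j, ∑ k, f i j k :=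
  Finset.sum_comm

theorem sumT {N : ℕ} (C : Fin N → ℤ) :
    ∑ i, ∑ j, ∑ k, (e C i j * e C i k - (if j = k then e C i j else 0)) = P3 C := by
  unfold P3
  refine Finset.sum_congr rfl fun i _ => ?_
  have hE : ∑ j, e C i j = En C i := rfl
  have h1 : ∀ j, ∑ k, (e C i j * e C i k - (if j = k then e C i j else 0)) = e C i j * En C i - e C i j := by
    intro j
    rw [Finset.sum_sub_distrib, ← Finset.mul_sum, hE]
    congr 1
    rw [Finset.sum_ite_eq]
    simp
  simp_rw [h1]
  rw [Finset.sum_sub_distrib, ← Finset.sum_mul, hE]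
  ring

end TRPM

open TRPM in
theorem specTRP : SpecTRP := by
  intro N C
  have hg : ∑ i, ∑ j, ∑ k, (if i ≠ j ∧ j ≠ k ∧ i ≠ k ∧ C i ≤ C j then (if C k ≤ C i then (1 : ℤ) else -1) else 0)
      = ∑ i, ∑ j, ∑ k, g C i j k := rfl
  have hd : D3 C = ∑ i, ∑ j, ∑ k, d C i j k := rfl
  rw [hg, hd, ← sumT C]
  have s1 : ∑ i, ∑ j, ∑ k, g C i k j = ∑ i, ∑ j, ∑ k, g C i j k := swap23 (g C)
  have s2 : ∑ i, ∑ j, ∑ k, g C j i k = ∑ i, ∑ j, ∑ k, g C i j k := swap12 (g C)
  have s3 : ∑ i, ∑ j, ∑ k, g C j k i = ∑ i, ∑ j, ∑ k, g C i j k := by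
    rw [swap12 (fun a b c => g C a c b)]
    exact s1
  have s4 : ∑ i, ∑ j, ∑ k, g C k i j = ∑ i, ∑ j, ∑ k, g C i j k := by
    rw [swap23 (fun a b c => g C b a c)]
    exact s2
  have s5 : ∑ i, ∑ j, ∑ k, g C k j i = ∑ i, ∑ j, ∑ k, g C i j k := by
    rw [swap12 (fun a b c => g C c a b)]
    exact s4
  have key : ∑ i, ∑ j, ∑ k, (g C i j k + g C i k j + g C j i k + g C j k i + g C k i j + g C k j i) =
      ∑ i, ∑ j, ∑ k, (6 * (e C i j * e C i k - (if j = k then e C i j else 0)) - d C i j k) :=
    Finset.sum_congr rfl fun i _ => Finset.sum_congr rfl fun j _ => Finset.sum_congr rfl fun k _ => point C i j k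
  simp only [Finset.sum_add_distrib, Finset.sum_sub_distrib, ← Finset.mul_sum] at key ⊢
  rw [s1, s2, s3, s4, s5] at key
  linarith

end Pool.Agent.Lib.MP7ec162.SP
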