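import Pool.Agent.Lib.MP_7ec162_pr.SP.Spec
import Pool.Agent.Lib.MP_7ec162_pr.SP.TRP
import Pool.Agent.Lib.MP_7ec162_pr.SP.TRD
import Pool.Agent.Lib.MP_7ec162_pr.SP.DHH
import Pool.Agent.Lib.MP_7ec162_pr.SP.DRF
import Pool.Agent.Lib.MP_7ec162_pr.SP.SUM
import Pool.Agent.Lib.MP_7ec162_pr.SP.STA
import Pool.Agent.Lib.MP_7ec162_pr.SP.INQ
import Pool.Agent.Lib.MP_7ec162_pr.SP.EXP
import Pool.Agent.Lib.MP_7ec162_pr.SP.FIN

/-!
# MP_7ec162, SP: assembly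
-/

set_option autoImplicit false

namespace Pool.Agent.Lib.MP7ec162.SP

theorem allFIN : SpecFIN := specFIN (specEXP (specDRF specTRP specTRD specDHH) specSUM specSTA specINQ)

end Pool.Agent.Lib.MP7ec162.SP
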