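import Mathlib

/-!
# MP_7ec162: bounds for the speed `V(N)` of pairwise updated counters. Definitions and exact statements

THEOREM (`Results/MP_7ec162_pr/SpeedBounds.lean`). Let `V(N)` be the speed. `V(N) ≥ 1 + ((N+1)^2 + 8)/((N-1)(7N+3))` for `N ≥ 3` and `V(N) ≤ 5/4 + 2/(3(N-1))` for `N ≥ 4`; so
`8/7 ≤ liminf V(N) ≤ limsup V(N) ≤ 5/4` (known: `1 + √3/27 = 1.064..` and `34/27 = 1.259..`). Consequently `V(M) < V(N)` for `N = 3, M ≥ 4`; `N = 4, M ≥ 8`; `N = 5, M ≥ 18`; `N = 6, M ≥ 202`.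

Module `XXX` is the file `SP/XXX.lean` with `theorem specXXX (hYYY : SpecYYY) .. : SpecXXX` (the modules named after USES, in this order) in the namespace
`Pool.Agent.Lib.MP7ec162.SP`, own lemmas in the namespace `XXXM`. Every module imports only `Pool.Agent.Lib.MP_7ec162_pr.SP.Spec`. All proofs below are complete.

IDEA. `H(C) = ∑_(a,b) |C_a - C_b|`. Its expected increment is `0` in the stationary state, and for every `C` it is a combination of `P2` (ordered pairs of equal counters) and `P3` (ordered triples of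
equal counters): for three counters, `6·1(all equal) - 1(all different)` is what remains after symmetrization. This gives `4 E P3 + 3 (N-1) E P2 = N (N-1) (N+1)`. And `P2² ≤ N (P3 + P2)`, `(N+1) P3 ≤ N (N-1) (P2 - 2)`.
-/

set_option autoImplicit false

namespace Pool.Agent.Lib.MP7ec162.SP

open Finset

noncomputable section

/-! ## Definitions -/

/-- the update with the drawn pair `{i, j}`: the smaller of `C i`, `C j` increases by `1`, both if they are equal -/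
def inc {N : ℕ} (i j : Fin N) (C : Fin N → ℤ) : Fin N → ℤ :=
  fun k => if (k = i ∧ C i ≤ C j) ∨ (k = j ∧ C j ≤ C i) then C k + 1 else C k

/-- the mean of `f i j` over the ordered pairs `i ≠ j` -/
def avg {N : ℕ} (f : Fin N → Fin N → ℝ) : ℝ := (∑ i, ∑ j, if i = j then 0 else f i j) / ((N : ℝ) * ((N : ℝ) - 1))

/-- `φ` depends only on the vector of gaps: it does not change if the counters are permuted or all shifted by the same number -/
def GapFun {N : ℕ} (φ : (Fin N → ℤ) → ℝ) : Prop :=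
  (∀ (C : Fin N → ℤ) (c : ℤ), φ (fun k => C k + c) = φ C) ∧ ∀ (C : Fin N → ℤ) (s : Equiv.Perm (Fin N)), φ (C ∘ s) = φ C

/-- `w` is a probability distribution on the states in which at least two counters share the maximal value, and it is stationary for the gap chain -/
structure Stat (N : ℕ) (w : (Fin N → ℤ) → ℝ) : Prop where
  nonneg : ∀ C, 0 ≤ w C
  one : HasSum w 1
  top : ∀ C, w C ≠ 0 → ∃ i j : Fin N, i ≠ j ∧ C i = C j ∧ ∀ k, C k ≤ C i
  inv : ∀ φ : (Fin N → ℤ) → ℝ, GapFun φ → (∃ B : ℝ, ∀ C, |φ C| ≤ B) →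
    ∑' C, w C * φ C = ∑' C, w C * avg (fun i j => φ (inc i j C))

/-- the speed: the expected increment of the sum of the counters in one step -/
def speed (N : ℕ) (w : (Fin N → ℤ) → ℝ) : ℝ :=
  ∑' C, w C * avg (fun i j => ((∑ k, inc i j C k : ℤ) : ℝ) - ((∑ k, C k : ℤ) : ℝ))

/-- the number of counters equal to `C i`, without `i` -/
def En {N : ℕ} (C : Fin N → ℤ) (i : Fin N) : ℤ := ∑ j, if i ≠ j ∧ C j = C i then 1 else 0

/-- ordered pairs of equal counters -/
def P2 {N : ℕ} (C : Fin N → ℤ) : ℤ := ∑ i, En C i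

/-- ordered triples of equal counters -/
def P3 {N : ℕ} (C : Fin N → ℤ) : ℤ := ∑ i, En C i * (En C i - 1)

/-- `H(C) = ∑ |C_a - C_b|` -/
def HH {N : ℕ} (C : Fin N → ℤ) : ℤ := ∑ a, ∑ b, |C a - C b|

/-- ordered triples of different indices with three different values -/
def D3 {N : ℕ} (C : Fin N → ℤ) : ℤ := ∑ i, ∑ j, ∑ k, if C i ≠ C j ∧ C j ≠ C k ∧ C i ≠ C k then 1 else 0

/-! ## Statements -/

/-- **TRP** (170 lines). The sum over triples.
PROOF. `u(x,y) = 1` if `x ≤ y` else `0`, `s(x,y) = 1` if `y ≤ x` else `-1`. For integers `x, y, z` the sum of `u(x,y) s(x,z)` over the six orders of `(x,y,z)` is `6` if all are equal, `-1` if all are different, `0` otherwise (case check). Sum over all ordered triples of pairwise different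
indices (the six sums are equal by renaming, `Finset.sum_comm`): `6 ∑ u s = 6 · #(equal triples) - D3`, and `#(equal triples) = ∑_i (E_i)² - E_i = P3` (for fixed `i` the pairs `j ≠ k` of the set counted by `E_i`). -/
def SpecTRP : Prop := ∀ (N : ℕ) (C : Fin N → ℤ),
  6 * ∑ i, ∑ j, ∑ k, (if i ≠ j ∧ j ≠ k ∧ i ≠ k ∧ C i ≤ C j then (if C k ≤ C i then (1 : ℤ) else -1) else 0) = 6 * P3 C - D3 C

/-- **TRD** (120 lines). Inclusion and exclusion: among the `N(N-1)(N-2)` ordered triples of different indices.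
PROOF. For three integers `1(all different) = 1 - 1(x=y) - 1(y=z) - 1(x=z) + 2 · 1(x=y=z)`. Sum over the triples of different indices (a triple with three different values has different indices): each of the three pair terms gives `(N-2) P2`. -/
def SpecTRD : Prop := ∀ (N : ℕ) (C : Fin N → ℤ), D3 C = (N : ℤ) * (N - 1) * (N - 2) - 3 * (N - 2) * P2 C + 2 * P3 C

/-- **DHH** (170 lines). The increment of `H` for one pair.
PROOF. With `s(x,y) = |x + 1 - y| - |x - y| = 1` if `y ≤ x`, `-1` if `x < y`. If `C i < C j` only `i` is raised: `2 ∑_(k≠i) s(C i, C k)`. If `C i = C j` both are raised: for `k ≠ i, j` the terms `4 s(C i, C k)`, for the pair `{i,j}` nothing; the formula counts `2 s + 2 s = 4` for it. -/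
def SpecDHH : Prop := ∀ (N : ℕ) (C : Fin N → ℤ) (i j : Fin N), i ≠ j → HH (inc i j C) - HH C =
  2 * (if C i ≤ C j then ∑ k, (if k = i then 0 else if C k ≤ C i then (1 : ℤ) else -1) else 0) +
  2 * (if C j ≤ C i then ∑ k, (if k = j then 0 else if C k ≤ C j then (1 : ℤ) else -1) else 0) - (if C i = C j then 4 else 0)

/-- **DRF** (140 lines), USES TRP, TRD, DHH. The drift of `H`.
PROOF. Sum DHH over `i ≠ j`: `4 ∑_(i≠j) u(C i, C j) ∑_(k≠i) s(C i, C k) - 4 P2`. The terms `k = j`: `∑_(i≠j) (1(=) - 1(<)) = P2 - (N(N-1) - P2)/2`; the terms with three different indices: `P3 - D3/6` (TRP). With TRD: total `(8 P3 + 6 (N-1) P2 - 2 N (N-1) (N+1))/3`. -/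
def SpecDRF : Prop := ∀ (N : ℕ) (C : Fin N → ℤ),
  3 * ∑ i, ∑ j, (if i = j then 0 else HH (inc i j C) - HH C) = 8 * P3 C + 6 * (N - 1) * P2 C - 2 * N * (N - 1) * (N + 1)

/-- **SUM** (110 lines). The increment of the sum of the counters: `1`, and `2` for equal counters; so `avg = 1 + P2/(N(N-1))`. -/
def SpecSUM : Prop := ∀ (N : ℕ) (C : Fin N → ℤ), 2 ≤ N →
  avg (fun i j => ((∑ k, inc i j C k : ℤ) : ℝ) - ((∑ k, C k : ℤ) : ℝ)) = 1 + (P2 C : ℝ) / ((N : ℝ) * ((N : ℝ) - 1))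

/-- **STA** (170 lines). Stationarity for unbounded functions with bounded increments.
PROOF. `φ_M = min φ M` is a bounded gap function (`0 ≤ φ_M ≤ M`): `∑ w(C) avg (φ_M(inc i j C) - φ_M(C)) = 0` (`avg` of a constant is the constant, `N ≥ 2`; all sums converge absolutely by comparison with `w`). For `M → ∞` the terms tend to `w(C) avg (φ(inc i j C) - φ(C))` and are bounded by `B w(C)`
(`|min a M - min b M| ≤ |a - b|`): dominated convergence (`tendsto_tsum_of_dominated_convergence`). -/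
def SpecSTA : Prop := ∀ (N : ℕ) (w : (Fin N → ℤ) → ℝ) (φ : (Fin N → ℤ) → ℝ) (B : ℝ), 2 ≤ N → Stat N w → GapFun φ → (∀ C, 0 ≤ φ C) →
  (∀ C i j, |φ (inc i j C) - φ C| ≤ B) → ∑' C, w C * avg (fun i j => φ (inc i j C) - φ C) = 0

/-- **INQ** (150 lines). The two inequalities.
PROOF. First: Cauchy, `P2² = (∑ E_i)² ≤ N ∑ E_i² = N (P3 + P2)`. Second: `e = E_i`, `0 ≤ e ≤ N - 1`; for `e ≥ 1` `(N+1) e (e-1) ≤ N (N-1) (e - 2/(e+1))`, because `e - 2/(e+1) = (e-1)(e+2)/(e+1)` and `e (e+1)/(e+2) ≤ (N-1) N/(N+1)` (increasing in `e`). Sum over the `i` with `E_i ≥ 1` (in `ℚ` or `ℝ`):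
`(N+1) P3 ≤ N (N-1) (P2 - 2 ∑_(E_i ≥ 1) 1/(E_i+1))`, and the last sum is `≥ 1`: the indices `k` with `C k = C i₀` (a counter with `E ≥ 1`) have all `E_k = E_(i₀)` and there are `E_(i₀) + 1` of them. -/
def SpecINQ : Prop := ∀ (N : ℕ) (C : Fin N → ℤ), P2 C ^ 2 ≤ N * (P3 C + P2 C) ∧ 0 ≤ P2 C ∧ P2 C ≤ N * (N - 1) ∧ 0 ≤ P3 C ∧ P3 C ≤ N * (N - 1) * (N - 2) + N ∧
  ((∃ i j : Fin N, i ≠ j ∧ C i = C j) → (N + 1) * P3 C ≤ N * (N - 1) * (P2 C - 2))

/-- **EXP** (170 lines), USES DRF, SUM, STA, INQ. The expected values.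
PROOF. `x = ∑ w P2`, `y = ∑ w P3` (bounded, so summable). `HH` is a gap function, `≥ 0`, increments bounded (e.g. by `4 N²`, from `|·|` being `1`-Lipschitz): STA and DRF give the first equation. SUM gives the speed. INQ: `∑ w P2² ≤ N (y + x)` and Jensen `x² ≤ ∑ w P2²` (`∑ w (P2 - x)² ≥ 0`). The last one from `top`. -/
def SpecEXP : Prop := ∀ (N : ℕ) (w : (Fin N → ℤ) → ℝ), 2 ≤ N → Stat N w → ∃ x y : ℝ, speed N w = 1 + x / ((N : ℝ) * ((N : ℝ) - 1)) ∧
  4 * y + 3 * ((N : ℝ) - 1) * x = N * ((N : ℝ) - 1) * ((N : ℝ) + 1) ∧ x ^ 2 ≤ N * (y + x) ∧ 0 ≤ x ∧ ((N : ℝ) + 1) * y ≤ N * ((N : ℝ) - 1) * (x - 2)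

/-- **FIN** (150 lines), USES EXP. The bounds and the comparisons.
PROOF. `x = N (N-1) q`. Lower: `(N+1) y ≤ N (N-1) (x-2)` with `4 y = N (N-1) (N+1) - 3 (N-1) x` gives `N ((N+1)² + 8) ≤ (7 N + 3) x`. Upper: `4 (N-1) q² + (3N-7) q ≤ N + 1`; at `q₀ = 1/4 + c`, `c = 2/(3(N-1))`, the left side minus `N + 1` is `-3 + 5 (2/3) - (8/9)/(N-1) ≥ 0` for `N ≥ 4`, and the left side is increasing in `q ≥ 0`,
so `q ≤ q₀`. Comparisons: `5/4 + 2/(3(M-1))` against `3/2`, `1 + 33/93`, `1 + 44/152`, `1 + 57/225`. -/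
def SpecFIN : Prop := (∀ (N : ℕ) (w : (Fin N → ℤ) → ℝ), 3 ≤ N → Stat N w → 1 + (((N : ℝ) + 1) ^ 2 + 8) / (((N : ℝ) - 1) * (7 * N + 3)) ≤ speed N w) ∧
  (∀ (N : ℕ) (w : (Fin N → ℤ) → ℝ), 4 ≤ N → Stat N w → speed N w ≤ 5 / 4 + 2 / (3 * ((N : ℝ) - 1))) ∧
  ∀ (N M : ℕ) (w : (Fin N → ℤ) → ℝ) (w' : (Fin M → ℤ) → ℝ), (N = 3 ∧ 4 ≤ M) ∨ (N = 4 ∧ 8 ≤ M) ∨ (N = 5 ∧ 18 ≤ M) ∨ (N = 6 ∧ 202 ≤ M) →
    Stat N w → Stat M w' → speed M w' < speed N w

end

end Pool.Agent.Lib.MP7ec162.SP
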